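import Mathlib

/-!
# Traces of powers of the Laplacian of a complex over an integral group ring
-/

set_option autoImplicit false

noncomputable section

namespace Pool.Agent.N300.LT

variable {G H : Type} [Group G] [Group H]

/-- the involution -/
def inv1 (a : MonoidAlgebra ℤ G) : MonoidAlgebra ℤ G := MonoidAlgebra.mapDomain (fun g => g⁻¹) a

theorem inv1_add (a b : MonoidAlgebra ℤ G) : inv1 (a + b) = inv1 a + inv1 b :=
  MonoidAlgebra.mapDomain_add _ _ _

theorem inv1_zero : inv1 (0 : MonoidAlgebra ℤ G) = 0 := MonoidAlgebra.mapDomain_zero _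

theorem inv1_single (g : G) (c : ℤ) : inv1 (MonoidAlgebra.single g c) = MonoidAlgebra.single g⁻¹ c :=
  MonoidAlgebra.mapDomain_single

theorem inv1_sum {ι : Type} (s : Finset ι) (f : ι → MonoidAlgebra ℤ G) : inv1 (∑ i ∈ s, f i) = ∑ i ∈ s, inv1 (f i) := by
  classical
  induction s using Finset.induction_on with
  | empty => simp [inv1_zero]
  | insert i s hi ih => rw [Finset.sum_insert hi, Finset.sum_insert hi, inv1_add, ih]

theorem inv1_mul (a b : MonoidAlgebra ℤ G) : inv1 (a * b) = inv1 b * inv1 a := by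
  induction a using MonoidAlgebra.induction_linear with
  | zero => rw [zero_mul, inv1_zero, mul_zero]
  | add a a' h1 h2 => rw [add_mul, inv1_add, inv1_add, mul_add, h1, h2]
  | single g c =>
    induction b using MonoidAlgebra.induction_linear with
    | zero => rw [mul_zero, inv1_zero, zero_mul]
    | add b b' h1 h2 => rw [mul_add, inv1_add, inv1_add, add_mul, h1, h2]
    | single h d =>
      rw [MonoidAlgebra.single_mul_single, inv1_single, inv1_single, inv1_single,
        MonoidAlgebra.single_mul_single, mul_inv_rev, mul_comm c d]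

theorem inv1_inv1 (a : MonoidAlgebra ℤ G) : inv1 (inv1 a) = a := by
  induction a using MonoidAlgebra.induction_linear with
  | zero => rw [inv1_zero, inv1_zero]
  | add a a' h1 h2 => rw [inv1_add, inv1_add, h1, h2]
  | single g c => rw [inv1_single, inv1_single, inv_inv]

theorem inv1_intCast (m : ℤ) : inv1 (m : MonoidAlgebra ℤ G) = m := by
  have : (m : MonoidAlgebra ℤ G) = MonoidAlgebra.single 1 m := by
    rw [MonoidAlgebra.intCast_def, Int.cast_id]
  rw [this, inv1_single, inv_one]

theorem inv1_neg (a : MonoidAlgebra ℤ G) : inv1 (-a) = -inv1 a := by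
  apply eq_neg_of_add_eq_zero_left
  rw [← inv1_add, neg_add_cancel, inv1_zero]

/-- the adjoint matrix -/
def adj {ι κ : Type} (A : Matrix ι κ (MonoidAlgebra ℤ G)) : Matrix κ ι (MonoidAlgebra ℤ G) := A.transpose.map inv1

theorem adj_mul {ι κ τ : Type} [Fintype κ] (A : Matrix ι κ (MonoidAlgebra ℤ G))
    (B : Matrix κ τ (MonoidAlgebra ℤ G)) : adj (A * B) = adj B * adj A := by
  ext1 i j
  simp only [adj, Matrix.map_apply, Matrix.transpose_apply, Matrix.mul_apply, inv1_sum, inv1_mul]

theorem adj_add {ι κ : Type} (A B : Matrix ι κ (MonoidAlgebra ℤ G)) : adj (A + B) = adj A + adj B := by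
  ext1 i j
  exact inv1_add _ _

theorem adj_neg {ι κ : Type} (A : Matrix ι κ (MonoidAlgebra ℤ G)) : adj (-A) = -adj A := by
  ext1 i j
  exact inv1_neg _

theorem adj_adj {ι κ : Type} (A : Matrix ι κ (MonoidAlgebra ℤ G)) : adj (adj A) = A := by
  ext1 i j
  exact inv1_inv1 _

theorem coeff_mul_comm (a b : MonoidAlgebra ℤ G) : (a * b).coeff 1 = (b * a).coeff 1 := by
  classical
  induction a using MonoidAlgebra.induction_linear with
  | zero => rw [zero_mul, mul_zero]
  | add a a' h1 h2 =>
    rw [add_mul, mul_add, MonoidAlgebra.coeff_add, MonoidAlgebra.coeff_add, Finsupp.add_apply,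
      Finsupp.add_apply, h1, h2]
  | single g c =>
    induction b using MonoidAlgebra.induction_linear with
    | zero => rw [zero_mul, mul_zero]
    | add b b' h1 h2 =>
      rw [add_mul, mul_add, MonoidAlgebra.coeff_add, MonoidAlgebra.coeff_add, Finsupp.add_apply,
        Finsupp.add_apply, h1, h2]
    | single h d =>
      rw [MonoidAlgebra.single_mul_single, MonoidAlgebra.single_mul_single, MonoidAlgebra.coeff_single,
        MonoidAlgebra.coeff_single, Finsupp.single_apply, Finsupp.single_apply, mul_comm c d]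
      by_cases hgh : g * h = 1
      · rw [if_pos hgh, if_pos (mul_eq_one_iff_eq_inv.2 (by rw [mul_eq_one_iff_eq_inv.1 hgh, inv_inv]))]
      · rw [if_neg hgh, if_neg fun h1 => hgh (by rw [mul_eq_one_iff_eq_inv.1 h1, mul_inv_cancel])]

/-- the trace -/
def tr {ι : Type} [Fintype ι] (A : Matrix ι ι (MonoidAlgebra ℤ G)) : ℤ := ∑ i, (A i i).coeff 1

theorem coeff_sum' {ι : Type} (s : Finset ι) (f : ι → MonoidAlgebra ℤ G) (g : G) :
    (∑ i ∈ s, f i).coeff g = ∑ i ∈ s, (f i).coeff g := by
  classical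
  induction s using Finset.induction_on with
  | empty => simp
  | insert i s hi ih =>
    rw [Finset.sum_insert hi, Finset.sum_insert hi, MonoidAlgebra.coeff_add, Finsupp.add_apply, ih]

theorem tr_mul_comm {ι κ : Type} [Fintype ι] [Fintype κ] (A : Matrix ι κ (MonoidAlgebra ℤ G))
    (B : Matrix κ ι (MonoidAlgebra ℤ G)) : tr (A * B) = tr (B * A) := by
  unfold tr
  simp only [Matrix.mul_apply, coeff_sum']
  rw [Finset.sum_comm]
  exact Finset.sum_congr rfl fun i _ => Finset.sum_congr rfl fun j _ => coeff_mul_comm _ _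

theorem tr_add {ι : Type} [Fintype ι] (A B : Matrix ι ι (MonoidAlgebra ℤ G)) : tr (A + B) = tr A + tr B := by
  unfold tr
  rw [← Finset.sum_add_distrib]
  rfl

/-- the weighted trace -/
def tw {ι : Type} [Fintype ι] (w : ι → ℤ) (A : Matrix ι ι (MonoidAlgebra ℤ G)) : ℤ :=
  ∑ i, w i * (A i i).coeff 1

/-- the sign matrix -/
def sgm {ι : Type} [DecidableEq ι] (deg : ι → ℕ) : Matrix ι ι (MonoidAlgebra ℤ G) :=
  Matrix.diagonal fun i => (((-1) ^ deg i : ℤ) : MonoidAlgebra ℤ G)

theorem intCast_mul_coeff (m : ℤ) (a : MonoidAlgebra ℤ G) (g : G) :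
    ((m : MonoidAlgebra ℤ G) * a).coeff g = m * a.coeff g := by
  rw [MonoidAlgebra.intCast_def, Int.cast_id, MonoidAlgebra.coeff_single_one_mul]

theorem tr_sgm_mul {ι : Type} [Fintype ι] [DecidableEq ι] (deg : ι → ℕ)
    (A : Matrix ι ι (MonoidAlgebra ℤ G)) : tr (sgm deg * A) = tw (fun i => (-1) ^ deg i) A := by
  unfold tr tw sgm
  refine Finset.sum_congr rfl fun i _ => ?_
  rw [Matrix.diagonal_mul, intCast_mul_coeff]

section cx
variable {ι : Type} [Fintype ι] [DecidableEq ι] (deg : ι → ℕ) (D : Matrix ι ι (MonoidAlgebra ℤ G))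
  (hdeg : ∀ i j, D i j ≠ 0 → deg i = deg j + 1) (hsq : D * D = 0)

/-- the Laplacian -/
def lap (D : Matrix ι ι (MonoidAlgebra ℤ G)) : Matrix ι ι (MonoidAlgebra ℤ G) := D * adj D + adj D * D

omit [Fintype ι] in
theorem sgm_sq [Fintype ι] : sgm deg * sgm deg = (1 : Matrix ι ι (MonoidAlgebra ℤ G)) := by
  unfold sgm
  rw [Matrix.diagonal_mul_diagonal, ← Matrix.diagonal_one]
  congr 1
  funext i
  rw [← Int.cast_mul, ← pow_add, ← two_mul, pow_mul]
  simp

include hdeg in
theorem sgm_mul : sgm deg * D = -(D * sgm deg) := by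
  ext1 i j
  unfold sgm
  rw [Matrix.neg_apply, Matrix.diagonal_mul, Matrix.mul_diagonal]
  by_cases h : D i j = 0
  · rw [h]; simp
  · rw [hdeg i j h, pow_succ, mul_neg_one, Int.cast_neg, neg_mul, Int.cast_comm]

omit [Fintype ι] in
theorem adj_sgm : adj (sgm deg : Matrix ι ι (MonoidAlgebra ℤ G)) = sgm deg := by
  ext1 i j
  unfold adj sgm
  rw [Matrix.map_apply, Matrix.transpose_apply]
  by_cases h : i = j
  · subst h
    rw [Matrix.diagonal_apply_eq, inv1_intCast]
  · rw [Matrix.diagonal_apply_ne _ h, Matrix.diagonal_apply_ne _ (Ne.symm h), inv1_zero]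

include hdeg in
theorem sgm_mul_adj : sgm deg * adj D = -(adj D * sgm deg) := by
  have h := congrArg adj (sgm_mul deg D hdeg)
  rw [adj_mul, adj_sgm, adj_neg, adj_mul, adj_sgm] at h
  rw [h, neg_neg]

include hdeg hsq in
theorem tw_lap_pow (k : ℕ) : tw (fun i => (-1) ^ deg i) (lap D ^ (k + 1)) = 0 := by
  rw [← tr_sgm_mul]
  have hc : D * lap D = lap D * D := by
    unfold lap
    rw [mul_add, add_mul, ← mul_assoc, hsq, zero_mul, zero_add, mul_assoc (adj D), hsq, mul_zero, add_zero,
      mul_assoc]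
  have hck : D * lap D ^ k = lap D ^ k * D := (Commute.pow_right hc k).eq
  have e1 : lap D ^ (k + 1) = D * (adj D * lap D ^ k) + (adj D * lap D ^ k) * D := by
    have e2 : lap D ^ (k + 1) = (D * adj D + adj D * D) * lap D ^ k := by
      rw [pow_succ']
      rfl
    rw [e2, add_mul, mul_assoc, mul_assoc, hck, ← mul_assoc (adj D)]
  have e3 : tr (sgm deg * (adj D * lap D ^ k * D)) = tr (D * sgm deg * (adj D * lap D ^ k)) := by
    rw [← mul_assoc, tr_mul_comm, ← mul_assoc]
  rw [e1, mul_add, tr_add, e3, ← mul_assoc, ← tr_add, ← add_mul, sgm_mul deg D hdeg, neg_add_cancel, zero_mul]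
  unfold tr
  simp

end cx

end Pool.Agent.N300.LT
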