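import Pool.Agent.TH630.Tor.Cx

/-!
# Alternating sums of traces and of logarithms of Fuglede-Kadison determinants
-/

set_option autoImplicit false

open scoped InnerProductSpace Topology CompactlySupported
open MeasureTheory

noncomputable section

namespace Pool.Agent.N300.LT

open Pool.Agent.TH630.Tor Pool.Agent.Helper993.FK Pool.Agent.Helper993.Delta Polynomial

variable {G : Type} [Group G]

theorem trc_one {r : ℕ} : trc (1 : Matrix (Fin r) (Fin r) (MonoidAlgebra ℚ G)) = r := by
  unfold trc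
  simp

theorem bump_mono {δ δ' x : ℝ} (hδ : 0 < δ) (h : δ ≤ δ') (hx : 0 ≤ x) : bump δ x ≤ bump δ' x := by
  unfold bump
  have h1 : x / δ' ≤ x / δ := div_le_div_of_nonneg_left hx hδ h
  exact max_le_max le_rfl (min_le_min le_rfl (by linarith))

/-- If the von Neumann dimension of the kernel is zero then the operator is injective. -/
theorem inj_of_dimKer {r : ℕ} (A : Matrix (Fin r) (Fin r) (MonoidAlgebra ℚ G)) (h : dimKer (rMul A) = 0) :
    ∀ v, rMul A v = 0 → v = 0 := by
  have hsym : ∀ u v : L2Pow G r, ⟪(rMul A).ker.starProjection u, v⟫_ℂ = ⟪u, (rMul A).ker.starProjection v⟫_ℂ :=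
    fun u v => Submodule.inner_starProjection_left_eq_right _ u v
  have h1 : ∀ i : Fin r, (rMul A).ker.starProjection (unitVec i) = 0 := by
    have h2 : ∀ i : Fin r, (⟪(unitVec i : L2Pow G r), (rMul A).ker.starProjection (unitVec i)⟫_ℂ).re
        = ‖(rMul A).ker.starProjection (unitVec i : L2Pow G r)‖ ^ 2 := by
      intro i
      have h3 : ((rMul A).ker.starProjection ((rMul A).ker.starProjection (unitVec i : L2Pow G r)))
          = (rMul A).ker.starProjection (unitVec i) := by
        rw [Submodule.starProjection_eq_self_iff]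
        exact Submodule.starProjection_apply_mem _ _
      rw [← h3, ← hsym, h3]
      exact (norm_sq_eq_re_inner (𝕜 := ℂ) _).symm
    unfold dimKer at h
    rw [Finset.sum_eq_zero_iff_of_nonneg (fun i _ => by rw [h2 i]; positivity)] at h
    intro i
    have h4 := h i (Finset.mem_univ i)
    rw [h2 i] at h4
    exact norm_eq_zero.mp (pow_eq_zero_iff two_ne_zero |>.mp h4)
  intro v hv
  apply coord_ext
  intro j g
  rw [coord_zero]
  obtain ⟨w', hw'⟩ := exists_translate v g
  have h3 : rMul A w' = 0 := by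
    apply coord_ext
    intro k h
    rw [coord_zero, rMul_apply]
    have := congrArg (fun x => coord x k (g * h)) hv
    simp only [coord_zero, rMul_apply] at this
    rw [← this]
    simp only [hw', mul_assoc]
  have h2 : ⟪(unitVec j : L2Pow G r), w'⟫_ℂ = coord v j g := by
    rw [inner_unitVec, hw', mul_one]
  rw [← h2]
  have h5 : (rMul A).ker.starProjection w' = w' := by
    rw [Submodule.starProjection_eq_self_iff]
    exact h3
  rw [← h5, ← hsym, h1 j]
  exact inner_zero_left (𝕜 := ℂ) _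

section family
variable (s : Finset ℕ) (c : ℕ → ℝ) (r : ℕ → ℕ) (S : ∀ n, Matrix (Fin (r n)) (Fin (r n)) (MonoidAlgebra ℚ G))
  (hS : ∀ n, 0 ≤ rMul (S n)) (m : ℝ)
  (h0 : ∑ n ∈ s, c n * r n = m)
  (h1 : ∀ k, 0 < k → ∑ n ∈ s, c n * trc (S n ^ k) = 0)

include hS h0 h1 in
theorem sum_poly (p : ℝ[X]) : ∑ n ∈ s, c n * traceVal unitVec (rMul (S n)) (fun x => p.eval x)
    = m * p.eval 0 := by
  have e1 : ∀ n ∈ s, c n * traceVal unitVec (rMul (S n)) (fun x => p.eval x)
      = ∑ k ∈ Finset.range (p.natDegree + 1), p.coeff k * (c n * trc (S n ^ k)) := by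
    intro n _
    rw [traceVal_poly (S n) (hS n) p, Finset.mul_sum]
    exact Finset.sum_congr rfl fun k _ => by ring
  rw [Finset.sum_congr rfl e1, Finset.sum_comm, Finset.sum_range_succ']
  have e2 : ∀ k ∈ Finset.range p.natDegree, ∑ n ∈ s, p.coeff (k + 1) * (c n * trc (S n ^ (k + 1))) = 0 := by
    intro k _
    rw [← Finset.mul_sum, h1 _ (Nat.succ_pos k), mul_zero]
  rw [Finset.sum_eq_zero e2, zero_add, ← Finset.mul_sum]
  have e3 : ∑ n ∈ s, c n * trc (S n ^ 0) = m := by
    rw [← h0]
    exact Finset.sum_congr rfl fun n _ => by rw [pow_zero, trc_one]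
  rw [e3, ← Polynomial.coeff_zero_eq_eval_zero]
  ring

include hS h0 h1 in
/-- sums of traces of continuous functions from the moments -/
theorem sum_traceVal (h : ℝ → ℝ) (hh : Continuous h) :
    ∑ n ∈ s, c n * traceVal unitVec (rMul (S n)) h = m * h 0 := by
  set K : ℝ := ∑ n ∈ s, ‖rMul (S n)‖ with hK
  have hK1 : ∀ n ∈ s, ‖rMul (S n)‖ ≤ K := fun n hn =>
    Finset.single_le_sum (f := fun n => ‖rMul (S n)‖) (fun n _ => norm_nonneg _) hn
  have hK0 : 0 ≤ K := Finset.sum_nonneg fun n _ => norm_nonneg _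
  set R : ℝ := ∑ n ∈ s, |c n| * r n with hR
  have hR0 : 0 ≤ R := Finset.sum_nonneg fun n _ => by positivity
  rw [← sub_eq_zero, ← abs_eq_zero]
  apply le_antisymm _ (abs_nonneg _)
  apply le_of_forall_pos_le_add
  intro δ hδ
  set ε : ℝ := δ / (R + |m| + 1) with hε
  have hε0 : 0 < ε := by positivity
  obtain ⟨p, hp⟩ := exists_polynomial_near_of_continuousOn 0 K h hh.continuousOn ε hε0
  have e1 := sum_poly s c r S hS m h0 h1 p
  have e2 : ∑ n ∈ s, c n * traceVal unitVec (rMul (S n)) h - m * h 0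
      = (∑ n ∈ s, c n * (traceVal unitVec (rMul (S n)) h - traceVal unitVec (rMul (S n)) (fun x => p.eval x)))
        + m * (p.eval 0 - h 0) := by
    have : ∑ n ∈ s, c n * (traceVal unitVec (rMul (S n)) h - traceVal unitVec (rMul (S n)) (fun x => p.eval x))
        = ∑ n ∈ s, c n * traceVal unitVec (rMul (S n)) h
          - ∑ n ∈ s, c n * traceVal unitVec (rMul (S n)) (fun x => p.eval x) := by
      rw [← Finset.sum_sub_distrib]
      exact Finset.sum_congr rfl fun n _ => by ring
    rw [this, e1]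
    ring
  rw [e2, zero_add]
  refine (abs_add_le _ _).trans ?_
  have e3 : |∑ n ∈ s, c n * (traceVal unitVec (rMul (S n)) h
      - traceVal unitVec (rMul (S n)) (fun x => p.eval x))| ≤ R * ε := by
    refine (Finset.abs_sum_le_sum_abs _ _).trans ?_
    rw [hR, Finset.sum_mul]
    apply Finset.sum_le_sum
    intro n hn
    rw [abs_mul, mul_assoc]
    apply mul_le_mul_of_nonneg_left _ (abs_nonneg _)
    apply traceVal_near unitVec (fun i => (norm_unitVec i).le) (rMul (S n)) (hS n) (hK1 n hn) hh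
      (by fun_prop) hε0.le
    intro x hx
    rw [abs_sub_comm]
    exact (hp x hx).le
  have e4 : |m * (p.eval 0 - h 0)| ≤ |m| * ε := by
    rw [abs_mul]
    exact mul_le_mul_of_nonneg_left (hp 0 ⟨le_rfl, hK0⟩).le (abs_nonneg _)
  have e5 : (R + |m| + 1) * ε = δ := by
    rw [hε]
    field_simp
  nlinarith

include hS h0 h1 in
theorem euler_zero (hinj : ∀ n ∈ s, ∀ v, rMul (S n) v = 0 → v = 0) : m = 0 := by
  rw [← abs_eq_zero]
  apply le_antisymm _ (abs_nonneg _)
  apply le_of_forall_pos_le_add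
  intro η hη
  set R : ℝ := ∑ n ∈ s, |c n| with hR
  have hR0 : 0 ≤ R := Finset.sum_nonneg fun n _ => by positivity
  set ε : ℝ := η / (R + 1) with hε
  have hε0 : 0 < ε := by positivity
  have key : ∀ n, ∃ δ, 0 < δ ∧ (n ∈ s → traceVal unitVec (rMul (S n)) (bump δ) ≤ ε) := by
    intro n
    by_cases hn : n ∈ s
    · obtain ⟨δ, h2, h3⟩ := bump_small unitVec (fun i => (norm_unitVec i).le) (rMul (S n)) (hS n)
        (hinj n hn) hε0
      exact ⟨δ, h2, fun _ => h3⟩
    · exact ⟨1, one_pos, fun h => absurd h hn⟩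
  choose d hd1 hd2 using key
  set D : ℝ := ∑ n ∈ s, (d n)⁻¹ + 1 with hD
  have hD0 : 0 < D := by
    have : 0 ≤ ∑ n ∈ s, (d n)⁻¹ := Finset.sum_nonneg fun n _ => (inv_pos.2 (hd1 n)).le
    positivity
  have hDd : ∀ n ∈ s, D⁻¹ ≤ d n := by
    intro n hn
    have h2 : (d n)⁻¹ ≤ ∑ n ∈ s, (d n)⁻¹ := Finset.single_le_sum (f := fun n => (d n)⁻¹)
      (fun n _ => (inv_pos.2 (hd1 n)).le) hn
    rw [inv_le_comm₀ hD0 (hd1 n)]
    linarith
  have e1 := sum_traceVal s c r S hS m h0 h1 (bump D⁻¹) (bump_continuous _)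
  rw [bump_zero, mul_one] at e1
  rw [← e1, zero_add]
  refine (Finset.abs_sum_le_sum_abs _ _).trans ?_
  have e2 : ∀ n ∈ s, |c n * traceVal unitVec (rMul (S n)) (bump D⁻¹)| ≤ |c n| * ε := by
    intro n hn
    rw [abs_mul]
    apply mul_le_mul_of_nonneg_left _ (abs_nonneg _)
    have h2 : 0 ≤ traceVal unitVec (rMul (S n)) (bump D⁻¹) :=
      Finset.sum_nonneg fun i _ => cfc_bump_nonneg _ _ _
    rw [abs_of_nonneg h2]
    refine (traceVal_mono unitVec (rMul (S n)) (hS n) le_rfl (bump_continuous _) (bump_continuous (d n))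
      fun x hx => bump_mono (inv_pos.2 hD0) (hDd n hn) hx.1).trans (hd2 n hn)
  refine (Finset.sum_le_sum e2).trans ?_
  rw [← Finset.sum_mul]
  have e5 : (R + 1) * ε = η := by
    rw [hε]
    field_simp
  nlinarith

include hS h0 h1 in
theorem sum_log (hm : m = 0) (f : ∀ n, L2Pow G (r n) →L[ℂ] L2Pow G (r n))
    (hf : ∀ n, ContinuousLinearMap.adjoint (f n) ∘L f n = rMul (S n)) (hpos : ∀ n ∈ s, 0 < fkDet (f n)) :
    ∑ n ∈ s, c n * Real.log (fkDet (f n)) = 0 := by
  set μ : ℕ → Measure ℝ := fun n => spectralMeasure unitVec (rMul (S n)) with hμ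
  have hreg : ∀ n, (μ n).Regular := fun n => by
    rw [hμ]
    unfold spectralMeasure
    infer_instance
  have hint : ∀ n ∈ s, IntegrableOn Real.log (Set.Ioi 0) (μ n) := by
    intro n hn
    by_contra hcon
    have := hpos n hn
    unfold fkDet detOf at this
    rw [if_neg] at this
    · exact lt_irrefl _ this
    · unfold specMeas
      rw [hf n]
      exact hcon
  have hlog : ∀ n ∈ s, Real.log (fkDet (f n)) = 1 / 2 * ∫ x, (Set.Ioi (0 : ℝ)).indicator Real.log x ∂(μ n) := by
    intro n hn
    have h3 := hint n hn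
    have h4 : specMeas unitVec (f n) = μ n := by
      unfold specMeas
      rw [hf n]
    unfold fkDet detOf
    rw [h4, if_pos h3, Real.log_exp, integral_indicator measurableSet_Ioi]
  have hint' : ∀ n ∈ s, Integrable ((Set.Ioi (0 : ℝ)).indicator Real.log) (μ n) := fun n hn =>
    (integrable_indicator_iff measurableSet_Ioi).2 (hint n hn)
  set A : Measure ℝ := ∑ n ∈ s, (Real.toNNReal (c n)) • μ n with hA
  set B : Measure ℝ := ∑ n ∈ s, (Real.toNNReal (-c n)) • μ n with hB
  have iA : ∀ g : ℝ → ℝ, (∀ n ∈ s, Integrable g (μ n)) →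
      ∫ x, g x ∂A - ∫ x, g x ∂B = ∑ n ∈ s, c n * ∫ x, g x ∂(μ n) := by
    intro g hg
    rw [hA, hB, integral_finsetSum_measure (fun n hn => (hg n hn).smul_measure_nnreal),
      integral_finsetSum_measure (fun n hn => (hg n hn).smul_measure_nnreal), ← Finset.sum_sub_distrib]
    apply Finset.sum_congr rfl
    intro n _
    rw [integral_smul_nnreal_measure, integral_smul_nnreal_measure, NNReal.smul_def, NNReal.smul_def,
      smul_eq_mul, smul_eq_mul, Real.coe_toNNReal', Real.coe_toNNReal', ← sub_mul, max_zero_sub_max_neg_zero_eq_self]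
  have hAB : A = B := by
    have rA : A.Regular := by
      have : IsFiniteMeasureOnCompacts A := ⟨fun K hK => by
        rw [hA, Measure.finset_sum_apply]
        refine ENNReal.sum_lt_top.2 fun n _ => ?_
        rw [Measure.smul_apply, ENNReal.smul_def, smul_eq_mul]
        exact ENNReal.mul_lt_top ENNReal.coe_lt_top hK.measure_lt_top⟩
      infer_instance
    have rB : B.Regular := by
      have : IsFiniteMeasureOnCompacts B := ⟨fun K hK => by
        rw [hB, Measure.finset_sum_apply]
        refine ENNReal.sum_lt_top.2 fun n _ => ?_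
        rw [Measure.smul_apply, ENNReal.smul_def, smul_eq_mul]
        exact ENNReal.mul_lt_top ENNReal.coe_lt_top hK.measure_lt_top⟩
      infer_instance
    apply Measure.ext_of_integral_eq_on_compactlySupported
    intro g
    rw [← sub_eq_zero, iA g (fun n _ => g.continuous.integrable_of_hasCompactSupport g.hasCompactSupport)]
    have e1 := sum_traceVal s c r S hS m h0 h1 g g.continuous
    rw [hm, zero_mul] at e1
    rw [← e1]
    apply Finset.sum_congr rfl
    intro n _
    rw [hμ, integral_spectralMeasure]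
    rfl
  have e1 := iA _ hint'
  rw [hAB, sub_self] at e1
  have e2 : ∑ n ∈ s, c n * Real.log (fkDet (f n))
      = 1 / 2 * ∑ n ∈ s, c n * ∫ x, (Set.Ioi (0 : ℝ)).indicator Real.log x ∂(μ n) := by
    rw [Finset.mul_sum]
    apply Finset.sum_congr rfl
    intro n hn
    rw [hlog n hn]
    ring
  rw [e2, ← e1, mul_zero]

end family

end Pool.Agent.N300.LT
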