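import Pool.Agent.N300.LT.Alg

/-!
# The Laplacian of a product
-/

set_option autoImplicit false

noncomputable section

namespace Pool.Agent.N300.LT

variable {G H : Type} [Group G] [Group H]

/-- the inclusion of the first factor -/
def il (G H : Type) [Group G] [Group H] : MonoidAlgebra ℤ G →+* MonoidAlgebra ℤ (G × H) :=
  MonoidAlgebra.mapDomainRingHom ℤ (MonoidHom.inl G H)

/-- the inclusion of the second factor -/
def ir (G H : Type) [Group G] [Group H] : MonoidAlgebra ℤ H →+* MonoidAlgebra ℤ (G × H) :=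
  MonoidAlgebra.mapDomainRingHom ℤ (MonoidHom.inr G H)

theorem il_single (g : G) (c : ℤ) : il G H (MonoidAlgebra.single g c) = MonoidAlgebra.single (g, 1) c := by
  unfold il
  rw [MonoidAlgebra.mapDomainRingHom_apply, MonoidAlgebra.mapDomain_single]
  rfl

theorem ir_single (h : H) (c : ℤ) : ir G H (MonoidAlgebra.single h c) = MonoidAlgebra.single (1, h) c := by
  unfold ir
  rw [MonoidAlgebra.mapDomainRingHom_apply, MonoidAlgebra.mapDomain_single]
  rfl

theorem il_ir_comm (a : MonoidAlgebra ℤ G) (b : MonoidAlgebra ℤ H) : il G H a * ir G H b = ir G H b * il G H a := by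
  induction a using MonoidAlgebra.induction_linear with
  | zero => rw [map_zero, zero_mul, mul_zero]
  | add a a' h1 h2 => rw [map_add, add_mul, mul_add, h1, h2]
  | single g c =>
    induction b using MonoidAlgebra.induction_linear with
    | zero => rw [map_zero, zero_mul, mul_zero]
    | add b b' h1 h2 => rw [map_add, add_mul, mul_add, h1, h2]
    | single h d =>
      rw [il_single, ir_single, MonoidAlgebra.single_mul_single, MonoidAlgebra.single_mul_single, mul_comm c d,
        Prod.mk_mul_mk, Prod.mk_mul_mk, one_mul, mul_one, mul_one, one_mul]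

theorem coeff_il_ir (a : MonoidAlgebra ℤ G) (b : MonoidAlgebra ℤ H) :
    (il G H a * ir G H b).coeff 1 = a.coeff 1 * b.coeff 1 := by
  classical
  induction a using MonoidAlgebra.induction_linear with
  | zero => simp
  | add a a' h1 h2 =>
    rw [map_add, add_mul, MonoidAlgebra.coeff_add, MonoidAlgebra.coeff_add, Finsupp.add_apply, Finsupp.add_apply,
      h1, h2, add_mul]
  | single g c =>
    induction b using MonoidAlgebra.induction_linear with
    | zero => simp
    | add b b' h1 h2 =>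
      rw [map_add, mul_add, MonoidAlgebra.coeff_add, MonoidAlgebra.coeff_add, Finsupp.add_apply,
        Finsupp.add_apply, h1, h2, mul_add]
    | single h d =>
      rw [il_single, ir_single, MonoidAlgebra.single_mul_single, MonoidAlgebra.coeff_single,
        MonoidAlgebra.coeff_single, MonoidAlgebra.coeff_single, Finsupp.single_apply, Finsupp.single_apply,
        Finsupp.single_apply, Prod.mk_mul_mk, one_mul, mul_one]
      by_cases hg : g = 1
      · by_cases hh : h = 1
        · rw [if_pos hg, if_pos hh, if_pos (by rw [hg, hh]; rfl)]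
        · rw [if_neg hh, mul_zero, if_neg fun h1 => hh (congrArg Prod.snd h1)]
      · rw [if_neg hg, zero_mul, if_neg fun h1 => hg (congrArg Prod.fst h1)]

theorem inv1_il (a : MonoidAlgebra ℤ G) : inv1 (il G H a) = il G H (inv1 a) := by
  induction a using MonoidAlgebra.induction_linear with
  | zero => rw [map_zero, inv1_zero, inv1_zero, map_zero]
  | add a a' h1 h2 => rw [map_add, inv1_add, inv1_add, map_add, h1, h2]
  | single g c => rw [il_single, inv1_single, inv1_single, il_single, Prod.inv_mk, inv_one]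

theorem inv1_ir (a : MonoidAlgebra ℤ H) : inv1 (ir G H a) = ir G H (inv1 a) := by
  induction a using MonoidAlgebra.induction_linear with
  | zero => rw [map_zero, inv1_zero, inv1_zero, map_zero]
  | add a a' h1 h2 => rw [map_add, inv1_add, inv1_add, map_add, h1, h2]
  | single g c => rw [ir_single, inv1_single, inv1_single, ir_single, Prod.inv_mk, inv_one]

section mat
variable {ι κ : Type} [Fintype ι] [DecidableEq ι] [Fintype κ] [DecidableEq κ]

/-- `A ⊗ 1` -/
def aM (H κ : Type) [Group H] [DecidableEq κ] (A : Matrix ι ι (MonoidAlgebra ℤ G)) :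
    Matrix (ι × κ) (ι × κ) (MonoidAlgebra ℤ (G × H)) :=
  Matrix.of fun x y => if x.2 = y.2 then il G H (A x.1 y.1) else 0

/-- `1 ⊗ B` -/
def bM (G ι : Type) [Group G] [DecidableEq ι] (B : Matrix κ κ (MonoidAlgebra ℤ H)) :
    Matrix (ι × κ) (ι × κ) (MonoidAlgebra ℤ (G × H)) :=
  Matrix.of fun x y => if x.1 = y.1 then ir G H (B x.2 y.2) else 0

theorem aM_mul (A A' : Matrix ι ι (MonoidAlgebra ℤ G)) : aM H κ (A * A') = aM H κ A * aM H κ A' := by
  ext1 x y
  rw [Matrix.mul_apply, Fintype.sum_prod_type]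
  simp only [aM, Matrix.of_apply, ite_mul, zero_mul, mul_ite, mul_zero, Finset.sum_ite_eq', Finset.sum_ite_eq,
    Finset.mem_univ, if_true]
  split_ifs with h
  · rw [Matrix.mul_apply, map_sum]
    exact Finset.sum_congr rfl fun i _ => map_mul _ _ _
  · simp

theorem bM_mul (A A' : Matrix κ κ (MonoidAlgebra ℤ H)) : bM G ι (A * A') = bM G ι A * bM G ι A' := by
  ext1 x y
  rw [Matrix.mul_apply, Fintype.sum_prod_type]
  rw [Finset.sum_eq_single x.1]
  · simp only [bM, Matrix.of_apply, if_true]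
    split_ifs with h
    · rw [Matrix.mul_apply, map_sum]
      exact Finset.sum_congr rfl fun i _ => map_mul _ _ _
    · simp
  · intro i _ hi
    apply Finset.sum_eq_zero
    intro j _
    simp only [bM, Matrix.of_apply]
    rw [if_neg (Ne.symm hi), zero_mul]
  · simp

omit [Fintype ι] [DecidableEq ι] [Fintype κ] in
theorem aM_add (A A' : Matrix ι ι (MonoidAlgebra ℤ G)) : aM H κ (A + A') = aM H κ A + aM H κ A' := by
  ext1 x y
  simp only [aM, Matrix.of_apply, Matrix.add_apply, map_add]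
  split_ifs
  · rfl
  · rw [add_zero]

omit [Fintype ι] [Fintype κ] [DecidableEq κ] in
theorem bM_add (A A' : Matrix κ κ (MonoidAlgebra ℤ H)) : bM G ι (A + A') = bM G ι A + bM G ι A' := by
  ext1 x y
  simp only [bM, Matrix.of_apply, Matrix.add_apply, map_add]
  split_ifs
  · rfl
  · rw [add_zero]

omit [Fintype ι] [Fintype κ] in
theorem aM_one : aM H κ (1 : Matrix ι ι (MonoidAlgebra ℤ G)) = 1 := by
  ext1 x y
  simp only [aM, Matrix.of_apply, Matrix.one_apply]
  by_cases h1 : x.1 = y.1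
  · by_cases h2 : x.2 = y.2
    · rw [if_pos h1, if_pos h2, map_one, if_pos (Prod.ext h1 h2)]
    · rw [if_neg h2, if_neg fun h => h2 (congrArg Prod.snd h)]
  · rw [if_neg h1, map_zero, ite_self, if_neg fun h => h1 (congrArg Prod.fst h)]

omit [Fintype ι] [Fintype κ] in
theorem bM_one : bM G ι (1 : Matrix κ κ (MonoidAlgebra ℤ H)) = 1 := by
  ext1 x y
  simp only [bM, Matrix.of_apply, Matrix.one_apply]
  by_cases h1 : x.1 = y.1
  · by_cases h2 : x.2 = y.2
    · rw [if_pos h1, if_pos h2, map_one, if_pos (Prod.ext h1 h2)]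
    · rw [if_neg h2, map_zero, ite_self, if_neg fun h => h2 (congrArg Prod.snd h)]
  · rw [if_neg h1, if_neg fun h => h1 (congrArg Prod.fst h)]

theorem aM_pow (A : Matrix ι ι (MonoidAlgebra ℤ G)) (k : ℕ) : aM H κ (A ^ k) = aM H κ A ^ k := by
  induction k with
  | zero => rw [pow_zero, pow_zero, aM_one]
  | succ k ih => rw [pow_succ, pow_succ, aM_mul, ih]

theorem bM_pow (A : Matrix κ κ (MonoidAlgebra ℤ H)) (k : ℕ) : bM G ι (A ^ k) = bM G ι A ^ k := by
  induction k with
  | zero => rw [pow_zero, pow_zero, bM_one]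
  | succ k ih => rw [pow_succ, pow_succ, bM_mul, ih]

theorem aM_mul_bM_apply (A : Matrix ι ι (MonoidAlgebra ℤ G)) (B : Matrix κ κ (MonoidAlgebra ℤ H)) (x y : ι × κ) :
    (aM H κ A * bM G ι B) x y = il G H (A x.1 y.1) * ir G H (B x.2 y.2) := by
  rw [Matrix.mul_apply, Fintype.sum_prod_type, Finset.sum_eq_single y.1]
  · rw [Finset.sum_eq_single x.2]
    · simp [aM, bM]
    · intro j _ hj
      simp only [aM, Matrix.of_apply]
      rw [if_neg (Ne.symm hj), zero_mul]
    · simp
  · intro i _ hi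
    apply Finset.sum_eq_zero
    intro j _
    simp only [bM, Matrix.of_apply]
    rw [if_neg hi, mul_zero]
  · simp

theorem bM_mul_aM_apply (A : Matrix ι ι (MonoidAlgebra ℤ G)) (B : Matrix κ κ (MonoidAlgebra ℤ H)) (x y : ι × κ) :
    (bM G ι B * aM H κ A) x y = ir G H (B x.2 y.2) * il G H (A x.1 y.1) := by
  rw [Matrix.mul_apply, Fintype.sum_prod_type, Finset.sum_eq_single x.1]
  · rw [Finset.sum_eq_single y.2]
    · simp [aM, bM]
    · intro j _ hj
      simp only [aM, Matrix.of_apply]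
      rw [if_neg hj, mul_zero]
    · simp
  · intro i _ hi
    apply Finset.sum_eq_zero
    intro j _
    simp only [bM, Matrix.of_apply]
    rw [if_neg (Ne.symm hi), zero_mul]
  · simp

theorem aM_bM_comm (A : Matrix ι ι (MonoidAlgebra ℤ G)) (B : Matrix κ κ (MonoidAlgebra ℤ H)) :
    aM H κ A * bM G ι B = bM G ι B * aM H κ A := by
  ext1 x y
  rw [aM_mul_bM_apply, bM_mul_aM_apply, il_ir_comm]

omit [Fintype ι] [DecidableEq ι] [Fintype κ] in
theorem adj_aM (A : Matrix ι ι (MonoidAlgebra ℤ G)) : adj (aM H κ A) = aM H κ (adj A) := by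
  ext1 x y
  simp only [adj, aM, Matrix.of_apply, Matrix.map_apply, Matrix.transpose_apply]
  by_cases h : x.2 = y.2
  · rw [if_pos h, if_pos h.symm, inv1_il]
  · rw [if_neg h, if_neg (Ne.symm h), inv1_zero]

omit [Fintype ι] [Fintype κ] [DecidableEq κ] in
theorem adj_bM (B : Matrix κ κ (MonoidAlgebra ℤ H)) : adj (bM G ι B) = bM G ι (adj B) := by
  ext1 x y
  simp only [adj, bM, Matrix.of_apply, Matrix.map_apply, Matrix.transpose_apply]
  by_cases h : x.1 = y.1
  · rw [if_pos h, if_pos h.symm, inv1_ir]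
  · rw [if_neg h, if_neg (Ne.symm h), inv1_zero]

/-- the boundary of the product -/
def dP (deg : ι → ℕ) (D : Matrix ι ι (MonoidAlgebra ℤ G)) (E : Matrix κ κ (MonoidAlgebra ℤ H)) :
    Matrix (ι × κ) (ι × κ) (MonoidAlgebra ℤ (G × H)) :=
  aM H κ D + aM H κ (sgm deg) * bM G ι E

omit [Fintype ι] [DecidableEq ι] [Fintype κ] in
theorem aM_neg (A : Matrix ι ι (MonoidAlgebra ℤ G)) : aM H κ (-A) = -aM H κ A := by
  apply eq_neg_of_add_eq_zero_left
  rw [← aM_add, neg_add_cancel]
  ext1 x y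
  simp [aM]

theorem lap_dP (deg : ι → ℕ) (D : Matrix ι ι (MonoidAlgebra ℤ G)) (E : Matrix κ κ (MonoidAlgebra ℤ H))
    (hdeg : ∀ i j, D i j ≠ 0 → deg i = deg j + 1) :
    lap (dP deg D E) = aM H κ (lap D) + bM G ι (lap E) := by
  have hadj : adj (dP deg D E) = aM H κ (adj D) + bM G ι (adj E) * aM H κ (sgm deg) := by
    unfold dP
    rw [adj_add, adj_mul, adj_aM, adj_aM, adj_bM, adj_sgm]
  unfold lap
  rw [hadj, aM_add, bM_add, aM_mul, aM_mul, bM_mul, bM_mul]
  unfold dP
  have s1 : aM H κ (sgm deg : Matrix ι ι (MonoidAlgebra ℤ G)) * aM H κ (sgm deg) = 1 := by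
    rw [← aM_mul, sgm_sq, aM_one]
  have s2 : aM H κ (sgm deg) * aM H κ D = -(aM H κ D * aM H κ (sgm deg)) := by
    rw [← aM_mul, ← aM_mul, sgm_mul deg D hdeg, aM_neg]
  have s3 : aM H κ (sgm deg) * aM H κ (adj D) = -(aM H κ (adj D) * aM H κ (sgm deg)) := by
    rw [← aM_mul, ← aM_mul, sgm_mul_adj deg D hdeg, aM_neg]
  have c1 := aM_bM_comm (H := H) (κ := κ) D (adj E)
  have c2 := aM_bM_comm (H := H) (κ := κ) (sgm deg : Matrix ι ι (MonoidAlgebra ℤ G)) (adj E)
  have c3 := aM_bM_comm (H := H) (κ := κ) (sgm deg : Matrix ι ι (MonoidAlgebra ℤ G)) E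
  have c4 := aM_bM_comm (H := H) (κ := κ) (adj D) E
  generalize aM H κ D = α at *
  generalize aM H κ (adj D) = α' at *
  generalize aM H κ (sgm deg : Matrix ι ι (MonoidAlgebra ℤ G)) = σ at *
  generalize bM G ι E = β at *
  generalize bM G ι (adj E) = β' at *
  have t1 : α * (β' * σ) = β' * (α * σ) := by rw [← mul_assoc, c1, mul_assoc]
  have t2 : σ * β * (β' * σ) = β * β' := by
    rw [c3, mul_assoc, ← mul_assoc σ, c2, mul_assoc, s1, mul_one]
  have t3 : σ * β * α' = -(α' * (σ * β)) := by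
    rw [mul_assoc, ← c4, ← mul_assoc, s3, neg_mul, mul_assoc]
  have t4 : β' * σ * α = -(β' * (α * σ)) := by
    rw [mul_assoc, s2, mul_neg]
  have t5 : β' * σ * (σ * β) = β' * β := by
    rw [mul_assoc, ← mul_assoc σ, s1, one_mul]
  rw [add_mul, mul_add, mul_add, add_mul, mul_add, mul_add, t1, t2, t3, t4, t5]
  abel

theorem lap_pow (deg : ι → ℕ) (D : Matrix ι ι (MonoidAlgebra ℤ G)) (E : Matrix κ κ (MonoidAlgebra ℤ H))
    (hdeg : ∀ i j, D i j ≠ 0 → deg i = deg j + 1) (m : ℕ) :
    lap (dP deg D E) ^ m = ∑ j ∈ Finset.range (m + 1), (m.choose j) • (aM H κ (lap D ^ j) * bM G ι (lap E ^ (m - j))) := by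
  rw [lap_dP deg D E hdeg, Commute.add_pow (aM_bM_comm (lap D) (lap E))]
  apply Finset.sum_congr rfl
  intro j _
  rw [aM_pow, bM_pow, nsmul_eq_mul]
  exact ((Nat.cast_commute (m.choose j) (aM H κ (lap D) ^ j * bM G ι (lap E) ^ (m - j))).eq).symm

theorem tw_sum {τ : Type} [Fintype τ] (w : τ → ℤ) (s : Finset ℕ) (f : ℕ → Matrix τ τ (MonoidAlgebra ℤ G)) :
    tw w (∑ j ∈ s, f j) = ∑ j ∈ s, tw w (f j) := by
  unfold tw
  rw [Finset.sum_comm]
  apply Finset.sum_congr rfl
  intro i _
  rw [Matrix.sum_apply, coeff_sum', Finset.mul_sum]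

theorem tw_nsmul {τ : Type} [Fintype τ] (w : τ → ℤ) (n : ℕ) (A : Matrix τ τ (MonoidAlgebra ℤ G)) :
    tw w (n • A) = n * tw w A := by
  unfold tw
  rw [Finset.mul_sum]
  apply Finset.sum_congr rfl
  intro i _
  rw [Matrix.smul_apply, MonoidAlgebra.coeff_smul, Finsupp.smul_apply, nsmul_eq_mul]
  ring

theorem tw_aM_bM (u u' : ι → ℤ) (v v' : κ → ℤ) (A : Matrix ι ι (MonoidAlgebra ℤ G))
    (B : Matrix κ κ (MonoidAlgebra ℤ H)) :
    tw (fun x : ι × κ => u x.1 * v x.2 + u' x.1 * v' x.2) (aM H κ A * bM G ι B)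
      = tw u A * tw v B + tw u' A * tw v' B := by
  unfold tw
  rw [Fintype.sum_prod_type, Finset.sum_mul_sum, Finset.sum_mul_sum, ← Finset.sum_add_distrib]
  apply Finset.sum_congr rfl
  intro i _
  rw [← Finset.sum_add_distrib]
  apply Finset.sum_congr rfl
  intro j _
  rw [aM_mul_bM_apply, coeff_il_ir]
  ring

/-- The alternating sum of the traces of the powers of the Laplacian of a product, weighted by the degree. -/
theorem tw_prod (deg : ι → ℕ) (deg' : κ → ℕ) (D : Matrix ι ι (MonoidAlgebra ℤ G))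
    (E : Matrix κ κ (MonoidAlgebra ℤ H))
    (hdeg : ∀ i j, D i j ≠ 0 → deg i = deg j + 1) (hsq : D * D = 0)
    (hdeg' : ∀ i j, E i j ≠ 0 → deg' i = deg' j + 1) (hsq' : E * E = 0)
    (h0 : ∑ i, ((-1 : ℤ)) ^ deg i = 0) (h0' : ∑ i, ((-1 : ℤ)) ^ deg' i = 0) (m : ℕ) :
    tw (fun x : ι × κ => (-1) ^ (deg x.1 + deg' x.2) * ((deg x.1 + deg' x.2 : ℕ) : ℤ)) (lap (dP deg D E) ^ m) = 0 := by
  have e1 : (fun x : ι × κ => (-1 : ℤ) ^ (deg x.1 + deg' x.2) * ((deg x.1 + deg' x.2 : ℕ) : ℤ))
      = fun x : ι × κ => ((-1) ^ deg x.1 * (deg x.1 : ℤ)) * (-1) ^ deg' x.2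
        + (-1) ^ deg x.1 * ((-1) ^ deg' x.2 * (deg' x.2 : ℤ)) := by
    funext x
    rw [pow_add]
    push_cast
    ring
  have z1 : ∀ k, tw (fun i => (-1 : ℤ) ^ deg i) (lap D ^ k) = 0 := by
    intro k
    cases k with
    | zero =>
      rw [pow_zero, ← h0]
      unfold tw
      simp
    | succ k => exact tw_lap_pow deg D hdeg hsq k
  have z2 : ∀ k, tw (fun i => (-1 : ℤ) ^ deg' i) (lap E ^ k) = 0 := by
    intro k
    cases k with
    | zero =>
      rw [pow_zero, ← h0']
      unfold tw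
      simp
    | succ k => exact tw_lap_pow deg' E hdeg' hsq' k
  rw [lap_pow deg D E hdeg, tw_sum, e1]
  apply Finset.sum_eq_zero
  intro j _
  rw [tw_nsmul, tw_aM_bM (fun i => (-1) ^ deg i * (deg i : ℤ)) (fun i => (-1) ^ deg i) (fun i => (-1) ^ deg' i)
    (fun i => (-1) ^ deg' i * (deg' i : ℤ)), z1, z2]
  ring

end mat

end Pool.Agent.N300.LT
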